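import Pool.Agent.AT6.Stmts3
import Pool.Agent.Helper50_PP.Ffa
import Pool.Agent.Helper92_AT5.GL5

/-!
# Squad AT6, row INM: integrality of the numbers `Mm (v ^ j) b χ χ'`
-/

open scoped BigOperators

noncomputable section

namespace Pool.Agent.PP.T6.H33

open Pool.Agent.Helper51_AWC Pool.Agent.Helper79_WRA Pool.Agent.PP Pool.Agent.PP.KF
open Pool.Agent.PP.K9 Pool.Agent.PP.K9.H97 Pool.Agent.PP.H75 Pool.Agent.PP.T3 Pool.Agent.PP.T2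

attribute [local instance] Ideal.Quotient.field

/-- the functions `s ↦ gv M C (v ^ j s) b χ` as exponential sums -/
theorem gv_exp (M : Ideal (integralClosure ℤ ℂ)) [M.IsMaximal] (G : Type) [Group G] [Finite G]
    (v : G) (b : G → FF M) (q : ℕ) (hq : 0 < q) (hv : v ^ q = 1) (ζ : ℂ)
    (hζ : IsPrimitiveRoot ζ q)
    (hS : (IrrE M (fun t : Cu v => b t)).Finite) :
    ∃ ix : (Cu v → ℂ) → ℕ, ∀ χ ∈ Irr G, ∃ mu : (Cu v → ℂ) → ℤ, ∀ (j : ℕ) (s : Cu v),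
      gv M (Cu v) (v ^ j * s) b χ =
        ∑ θ ∈ hS.toFinset, (mu θ : ℂ) * ζ ^ (ix θ * j) * θ s := by
  classical
  have := Fintype.ofFinite G
  have := Fintype.ofFinite (Cu v)
  obtain ⟨uC, huC⟩ : ∃ uC : Cu v, (uC : G) = v :=
    ⟨⟨v, Subgroup.mem_centralizer_singleton_iff.2 rfl⟩, rfl⟩
  have hz : ∀ c : Cu v, uC * c = c * uC := by
    intro c
    apply Subtype.ext
    show (uC : G) * c = c * uC
    rw [huC]
    exact (Subgroup.mem_centralizer_singleton_iff.1 c.2).symm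
  have hzq : uC ^ q = 1 := by
    apply Subtype.ext
    rw [Subgroup.coe_pow, huC, hv, Subgroup.coe_one]
  have h1 : ∀ θ ∈ hS.toFinset, ∃ i : ℕ,
      ∀ (j : ℕ) (c : Cu v), θ (uC ^ j * c) = (ζ ^ i) ^ j * θ c := by
    intro θ hθ
    have hθ' : θ ∈ Irr (Cu v) := (hS.mem_toFinset.1 hθ).1
    obtain ⟨k, hk, hkj⟩ := T3.H63.cent_root hθ' hz hzq
    have : NeZero q := ⟨hq.ne'⟩
    obtain ⟨i, hi, rfl⟩ := hζ.eq_pow_of_pow_eq_one hk
    exact ⟨i, hkj⟩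
  choose! ix hix2 using h1
  refine ⟨ix, fun χ hχ => ?_⟩
  have h2 : ∀ θ ∈ hS.toFinset, ∃ m : ℤ,
      (Nat.card (Cu v) : ℂ)⁻¹ * ∑ c : Cu v, χ c * θ c⁻¹ = m := by
    intro θ hθ
    exact KF.H30.mult_int (Cu v) hχ (hS.mem_toFinset.1 hθ).1
  choose! mu hmu using h2
  refine ⟨mu, fun j s => ?_⟩
  have e1 : gv M (Cu v) (v ^ j * s) b χ =
      ∑ c : Cu v, eh M (fun t : Cu v => b t) c * χ (v ^ j * s * c) := by
    rw [gv, gbv, finsum_eq_sum_of_fintype]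
  have e2 : ∀ c : Cu v, eh M (fun t : Cu v => b t) c =
      (Nat.card (Cu v) : ℂ)⁻¹ * ∑ θ ∈ hS.toFinset, θ 1 * θ c⁻¹ := by
    intro c
    rw [eh, finsum_mem_eq_finite_toFinset_sum _ hS]
  have e3 : gv M (Cu v) (v ^ j * s) b χ = ∑ θ ∈ hS.toFinset, θ 1 *
      ((Nat.card (Cu v) : ℂ)⁻¹ * ∑ c : Cu v, θ c⁻¹ * χ (((uC ^ j * s : Cu v) : G) * c)) := by
    rw [e1]
    simp only [e2]
    have e4 : ((uC ^ j * s : Cu v) : G) = v ^ j * s := by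
      rw [Subgroup.coe_mul, Subgroup.coe_pow, huC]
    rw [e4]
    simp_rw [Finset.mul_sum, Finset.sum_mul]
    rw [Finset.sum_comm]
    refine Finset.sum_congr rfl fun θ _ => Finset.sum_congr rfl fun c _ => ?_
    ring
  rw [e3]
  refine Finset.sum_congr rfl fun θ hθ => ?_
  rw [T5.H92.conv_irr hχ (hS.mem_toFinset.1 hθ).1, hmu θ hθ, hix2 θ hθ, pow_mul]
  ring

theorem inm (inq : T5.InqStmt) (lsb : T3.LsbStmt) (lpw : T3.LpwStmt) : InmStmt := by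
  intro ℓ hfact M _ hM G _ _ e V γ hL v hv b hb a hva ζ hζ χ hχ χ' hχ'
  classical
  have := Fintype.ofFinite G
  have := Fintype.ofFinite (Cu v)
  have hp : ℓ.Prime := Fact.out
  have hq : 0 < ℓ ^ a := Nat.pow_pos hp.pos
  have hS : (IrrE M (fun t : Cu v => b t)).Finite := irr_finite'.subset (fun θ h => h.1)
  obtain ⟨ix, hix⟩ := gv_exp M G v b (ℓ ^ a) hq hva ζ hζ hS
  obtain ⟨mu, hmu⟩ := hix χ hχ
  obtain ⟨mu', hmu'⟩ := hix χ' hχ'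
  obtain ⟨hLC, _, hVc, _⟩ := lsb ℓ M hM G e V γ hL v hv b hb
  obtain ⟨R, hR⟩ : ∃ R : Finset (Cu v), R = Finset.univ.filter (fun s : Cu v => Reg ℓ s) :=
    ⟨_, rfl⟩
  have hrip : ∀ θ ∈ hS.toFinset, ∀ θ' ∈ hS.toFinset, ∃ n : ℤ,
      (Nat.card V : ℂ) * ((Nat.card (Cu v) : ℂ)⁻¹ * ∑ s ∈ R, θ s * starRingEnd ℂ (θ' s)) = n := by
    intro θ hθ θ' hθ'
    obtain ⟨n, hn⟩ := inq ℓ M hM (Cu v) (fun t : Cu v => b t) hLC.blk _
      hLC.tp θ (hS.mem_toFinset.1 hθ) θ' (hS.mem_toFinset.1 hθ')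
    refine ⟨n, ?_⟩
    rw [← hn, hVc, T5.rip, T5.H92.finsum_reg', ← hR]
  choose! N hN using hrip
  obtain ⟨r, hr⟩ : ∃ r : ℕ, r = (Subgroup.centralizer (V : Set G)).relIndex (Tg V γ ⊓ Cu v) :=
    ⟨_, rfl⟩
  obtain ⟨κ, hκ⟩ : ∃ κ : (Cu v → ℂ) × (Cu v → ℂ) → ℕ,
    κ = fun p => (ix p.1 + (ℓ ^ a - 1) * ix p.2) % ℓ ^ a := ⟨_, rfl⟩
  obtain ⟨cf, hcf⟩ : ∃ cf : (Cu v → ℂ) × (Cu v → ℂ) → ℤ,
    cf = fun p => r * (mu p.1 * mu' p.2 * N p.1 p.2) := ⟨_, rfl⟩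
  refine ⟨fun i => ∑ p ∈ (hS.toFinset ×ˢ hS.toFinset).filter (fun p => κ p = i), cf p, ?_⟩
  intro j hj
  obtain ⟨hCj, _⟩ := lpw ℓ (FF M) (H50.fld ℓ hp M hM) G e V γ hL v hv b hb j hj
  have hzc : ∀ k : ℕ, starRingEnd ℂ (ζ ^ k) = ζ ^ ((ℓ ^ a - 1) * k) := by
    intro k
    have h1 : starRingEnd ℂ ζ * ζ = 1 := by
      rw [mul_comm, Complex.mul_conj, Complex.normSq_eq_norm_sq, hζ.norm'_eq_one hq.ne']
      norm_num
    have h2 : ζ ^ (ℓ ^ a - 1) * ζ = 1 := by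
      rw [← pow_succ, Nat.sub_add_cancel hq, hζ.pow_eq_one]
    have hz0 : ζ ≠ 0 := hζ.ne_zero hq.ne'
    have h3 : starRingEnd ℂ ζ = ζ ^ (ℓ ^ a - 1) := mul_right_cancel₀ hz0 (h1.trans h2.symm)
    rw [map_pow, h3, pow_mul]
  -- the left hand side
  have hPm : Pm M ℓ (v ^ j) b χ χ' = (Nat.card (Cu v) : ℂ)⁻¹ *
      ∑ s ∈ R, gv M (Cu v) (v ^ j * s) b χ * starRingEnd ℂ (gv M (Cu v) (v ^ j * s) b χ') := by
    rw [Pm, hCj, T5.H92.finsum_reg, ← hR]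
  have hprod : ∀ s ∈ R, gv M (Cu v) (v ^ j * s) b χ *
      starRingEnd ℂ (gv M (Cu v) (v ^ j * s) b χ') =
      ∑ p ∈ hS.toFinset ×ˢ hS.toFinset, (mu p.1 : ℂ) * mu' p.2 *
        ζ ^ (κ p * j) * (p.1 s * starRingEnd ℂ (p.2 s)) := by
    intro s _
    rw [hmu, hmu', map_sum, Finset.sum_mul_sum, Finset.sum_product]
    refine Finset.sum_congr rfl fun θ _ => Finset.sum_congr rfl fun θ' _ => ?_
    have e1 : ζ ^ (κ (θ, θ') * j) = ζ ^ (ix θ * j) * starRingEnd ℂ (ζ ^ (ix θ' * j)) := by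
      rw [hzc, ← pow_add, hκ]
      change ζ ^ ((ix θ + (ℓ ^ a - 1) * ix θ') % ℓ ^ a * j) = _
      rw [pow_mul, ← pow_eq_pow_mod _ hζ.pow_eq_one, ← pow_mul]
      congr 1
      ring
    rw [e1, map_mul, map_mul, map_intCast]
    ring
  have hmain : Mm M ℓ V γ (v ^ j) b χ χ' =
      ∑ p ∈ hS.toFinset ×ˢ hS.toFinset, (cf p : ℂ) * ζ ^ (κ p * j) := by
    rw [Mm, hCj, ← hr, hPm, Finset.sum_congr rfl hprod, Finset.sum_comm, Finset.mul_sum,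
      Finset.mul_sum]
    refine Finset.sum_congr rfl fun p hp => ?_
    rw [Finset.mem_product] at hp
    rw [← Finset.mul_sum, hcf]
    push_cast
    rw [← hN p.1 hp.1 p.2 hp.2]
    ring
  rw [hmain, ← Finset.sum_fiberwise_of_maps_to (s := hS.toFinset ×ˢ hS.toFinset)
    (t := Finset.range (ℓ ^ a)) (g := κ)
    (fun p _ => Finset.mem_range.2 (by rw [hκ]; exact Nat.mod_lt _ hq))]
  refine Finset.sum_congr rfl fun i _ => ?_
  rw [Int.cast_sum, Finset.sum_mul]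
  refine Finset.sum_congr rfl fun p hp => ?_
  rw [(Finset.mem_filter.1 hp).2]

end Pool.Agent.PP.T6.H33
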