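import Pool.Agent.AT6.Stmts3

/-!
# Squad AT6, row ISO
-/

open scoped BigOperators

noncomputable section

namespace Pool.Agent.PP.T6.H33

theorem iso_core (β : ℕ) (X : Type) [Fintype X] (p q : X → Fin β → ℂ)
    (h : ∀ χ χ', ∑ k, p χ k * starRingEnd ℂ (p χ' k) = ∑ k, q χ k * starRingEnd ℂ (q χ' k)) :
    ∃ U : Matrix (Fin β) (Fin β) ℂ, U.conjTranspose * U = 1 ∧ ∀ χ, U.mulVec (p χ) = q χ := by
  classical
  let P : X → EuclideanSpace ℂ (Fin β) := fun χ => WithLp.toLp 2 (p χ)
  let Q : X → EuclideanSpace ℂ (Fin β) := fun χ => WithLp.toLp 2 (q χ)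
  have hin : ∀ x y : EuclideanSpace ℂ (Fin β), inner ℂ x y = ∑ k, y k * starRingEnd ℂ (x k) := by
    intro x y
    rw [PiLp.inner_apply]
    rfl
  have hPQ : ∀ χ χ', inner ℂ (P χ') (P χ) = inner ℂ (Q χ') (Q χ) := by
    intro χ χ'
    rw [hin, hin]
    exact h χ χ'
  let A : (X → ℂ) →ₗ[ℂ] EuclideanSpace ℂ (Fin β) := Fintype.linearCombination ℂ P
  let B : (X → ℂ) →ₗ[ℂ] EuclideanSpace ℂ (Fin β) := Fintype.linearCombination ℂ Q
  have hA : ∀ c, A c = ∑ χ, c χ • P χ := fun c => Fintype.linearCombination_apply ℂ P c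
  have hB : ∀ c, B c = ∑ χ, c χ • Q χ := fun c => Fintype.linearCombination_apply ℂ Q c
  have hAB : ∀ c, inner ℂ (A c) (A c) = inner ℂ (B c) (B c) := by
    intro c
    rw [hA, hB]
    simp only [sum_inner, inner_sum, inner_smul_left, inner_smul_right, hPQ]
  have hn : ∀ c, ‖A c‖ = ‖B c‖ := by
    intro c
    have h1 := hAB c
    rw [inner_self_eq_norm_sq_to_K, inner_self_eq_norm_sq_to_K] at h1
    have h2 : ‖A c‖ ^ 2 = ‖B c‖ ^ 2 := by exact_mod_cast h1
    exact (pow_left_inj₀ (norm_nonneg _) (norm_nonneg _) two_ne_zero).1 h2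
  have hker : LinearMap.ker A ≤ LinearMap.ker B := by
    intro c hc
    rw [LinearMap.mem_ker] at hc ⊢
    rw [← norm_eq_zero, ← hn, hc, norm_zero]
  let L0 : LinearMap.range A →ₗ[ℂ] EuclideanSpace ℂ (Fin β) :=
    ((LinearMap.ker A).liftQ B hker).comp (A.quotKerEquivRange.symm : _ →ₗ[ℂ] _)
  have hL0 : ∀ c, L0 ⟨A c, LinearMap.mem_range_self A c⟩ = B c := by
    intro c
    have e : A.quotKerEquivRange.symm ⟨A c, LinearMap.mem_range_self A c⟩ =
        (LinearMap.ker A).mkQ c := by
      rw [LinearEquiv.symm_apply_eq]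
      rfl
    change (LinearMap.ker A).liftQ B hker (A.quotKerEquivRange.symm _) = _
    rw [e]
    rfl
  let L : LinearMap.range A →ₗᵢ[ℂ] EuclideanSpace ℂ (Fin β) :=
    ⟨L0, by
      rintro ⟨x, c, rfl⟩
      rw [hL0, ← hn]
      rfl⟩
  let f := L.extend
  have hf : ∀ χ, f (P χ) = Q χ := by
    intro χ
    have e1 : A (Pi.single χ 1) = P χ := by
      rw [hA, Finset.sum_eq_single χ]
      · simp
      · intro b _ hb
        rw [Pi.single_eq_of_ne hb, zero_smul]
      · intro h
        exact absurd (Finset.mem_univ _) h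
    have e2 : B (Pi.single χ 1) = Q χ := by
      rw [hB, Finset.sum_eq_single χ]
      · simp
      · intro b _ hb
        rw [Pi.single_eq_of_ne hb, zero_smul]
      · intro h
        exact absurd (Finset.mem_univ _) h
    have e3 := L.extend_apply ⟨A (Pi.single χ 1), LinearMap.mem_range_self A _⟩
    have e4 : L ⟨A (Pi.single χ 1), LinearMap.mem_range_self A _⟩ = B (Pi.single χ 1) := hL0 _
    rw [e4, e2] at e3
    rw [← e1]
    exact e3
  refine ⟨Matrix.of fun i j => f (EuclideanSpace.single j 1) i, ?_, ?_⟩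
  · ext i j
    rw [Matrix.mul_apply]
    have e1 : inner ℂ (f (EuclideanSpace.single i 1)) (f (EuclideanSpace.single j 1)) =
        inner ℂ (EuclideanSpace.single i (1 : ℂ)) (EuclideanSpace.single j (1 : ℂ)) :=
      f.inner_map_map _ _
    rw [hin] at e1
    have e2 : ∀ k, (Matrix.of fun i j => f (EuclideanSpace.single j 1) i).conjTranspose i k *
        (Matrix.of fun i j => f (EuclideanSpace.single j 1) i) k j =
        f (EuclideanSpace.single j 1) k * starRingEnd ℂ (f (EuclideanSpace.single i 1) k) := by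
      intro k
      rw [Matrix.conjTranspose_apply, Matrix.of_apply, Matrix.of_apply, mul_comm]
      rfl
    rw [Finset.sum_congr rfl fun k _ => e2 k, e1, EuclideanSpace.inner_single_left,
      Matrix.one_apply]
    by_cases hij : i = j
    · subst hij
      simp
    · simp [hij]
  · intro χ
    ext i
    have e1 : P χ = ∑ j, p χ j • EuclideanSpace.single j (1 : ℂ) := by
      ext k
      simp [P, Pi.single_apply]
    have e2 : f (P χ) i = ∑ j, p χ j * f (EuclideanSpace.single j 1) i := by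
      rw [e1, map_sum]
      simp
    rw [hf] at e2
    have e3 : q χ i = Q χ i := rfl
    rw [e3, e2, Matrix.mulVec, dotProduct]
    refine Finset.sum_congr rfl fun j _ => ?_
    rw [Matrix.of_apply, mul_comm]

theorem iso : IsoStmt := fun β X _ p q h => iso_core β X p q h

end Pool.Agent.PP.T6.H33
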